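import Mathlib
import Pool.Agent.H50.Tor9

namespace Pool.Agent.Results.MP_01886a_al.Cone

open Finset MvPolynomial Pool.Agent.H50.Tor Pointwise

variable {n : ℕ}

/-- The edge ideal. -/
noncomputable def edgeI (K : Type) [Field K] (G : SimpleGraph (Fin n)) :
    Ideal (MvPolynomial (Fin n) K) := Ideal.span {f | ∃ i j, G.Adj i j ∧ f = X i * X j}

/-- The cone over `G`: a new last vertex joined to all others. -/
def cone (G : SimpleGraph (Fin n)) : SimpleGraph (Fin (n + 1)) :=
  SimpleGraph.fromRel fun a b =>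
    b = Fin.last n ∨ ∃ i j, G.Adj i j ∧ a = i.castSucc ∧ b = j.castSucc

/-- The graded Betti number: the sum of the multigraded ones of total degree `d`. -/
noncomputable def gbetti {K : Type} [Field K] (I : Ideal (MvPolynomial (Fin n) K)) (i d : ℕ) : ℕ :=
  ∑ α ∈ (univ : Finset (Fin n)).finsuppAntidiag d, kbetti I i α

/-- The graded Betti numbers depend on the field. -/
def Dep (I : ∀ (K : Type) [Field K], Ideal (MvPolynomial (Fin n) K)) : Prop :=
  ∃ (K K' : Type) (_ : Field K) (_ : Field K') (i d : ℕ), gbetti (I K) i d ≠ gbetti (I K') i d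

def ES (G : SimpleGraph (Fin n)) : Set (Fin n →₀ ℕ) :=
  {s | ∃ i j, G.Adj i j ∧ s = Finsupp.single i 1 + Finsupp.single j 1}

lemma edge_eq (K : Type) [Field K] (G : SimpleGraph (Fin n)) : edgeI K G = monI K (ES G) := by
  rw [edgeI, monI]
  congr 1
  ext g
  constructor
  · rintro ⟨i, j, h, rfl⟩
    exact ⟨_, ⟨i, j, h, rfl⟩, by simp [X, monomial_mul]⟩
  · rintro ⟨_, ⟨i, j, h, rfl⟩, rfl⟩
    exact ⟨i, j, h, by simp [X, monomial_mul]⟩

lemma two_le {i j : Fin n} (h : i ≠ j) {β : Fin n →₀ ℕ} :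
    Finsupp.single i 1 + Finsupp.single j 1 ≤ β ↔ 1 ≤ β i ∧ 1 ≤ β j := by
  refine ⟨fun x => ⟨by simpa [h] using x i, by simpa [h] using x j⟩, fun x k => ?_⟩
  simp only [Finsupp.add_apply, Finsupp.single_apply]
  split_ifs with y z z <;> subst_vars <;> first | exact absurd rfl h | omega

lemma cz (G : SimpleGraph (Fin n)) (a : Fin n) :
    Finsupp.single a.castSucc 1 + Finsupp.single (Fin.last n) 1 ∈ ES (cone G) :=
  ⟨_, _, (SimpleGraph.fromRel_adj ..).2 ⟨(Fin.castSucc_lt_last a).ne, Or.inl (Or.inl rfl)⟩, rfl⟩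

lemma ce {G : SimpleGraph (Fin n)} {i j : Fin n} (h : G.Adj i j) :
    Finsupp.single i.castSucc 1 + Finsupp.single j.castSucc 1 ∈ ES (cone G) :=
  ⟨_, _, (SimpleGraph.fromRel_adj ..).2 ⟨fun x => h.ne (Fin.castSucc_injective _ x),
    Or.inl (Or.inr ⟨i, j, h, rfl, rfl⟩)⟩, rfl⟩

lemma cc {G : SimpleGraph (Fin n)} {s : Fin (n + 1) →₀ ℕ} (h : s ∈ ES (cone G)) :
    1 ≤ s (Fin.last n) ∨ ∃ i j, G.Adj i j ∧
      s = Finsupp.single i.castSucc 1 + Finsupp.single j.castSucc 1 := by
  obtain ⟨a, b, h, rfl⟩ := h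
  rcases ((SimpleGraph.fromRel_adj ..).1 h).2 with (rfl | ⟨i, j, x, rfl, rfl⟩) |
    (rfl | ⟨i, j, x, rfl, rfl⟩)
  exacts [Or.inl (by simp), Or.inr ⟨i, j, x, rfl⟩, Or.inl (by simp), Or.inr ⟨j, i, x.symm, rfl⟩]

theorem result (n : ℕ) (G : SimpleGraph (Fin n)) (h : Dep fun K _ => edgeI K G) :
    Dep fun K _ => edgeI K (cone G) ^ 2 := by
  classical
  by_contra hn
  have a1 : ∀ (K : Type) [Field K] j (α : Fin (n + 1) →₀ ℕ),
      hdim ℚ α.support (fun τ => ∃ s ∈ 2 • ES (cone G), s ≤ α - ind τ) j =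
      hdim K α.support (fun τ => ∃ s ∈ 2 • ES (cone G), s ≤ α - ind τ) j := fun K _ j α => by
    have : gbetti (edgeI ℚ (cone G) ^ 2) j (∑ i, α i) =
      gbetti (edgeI K (cone G) ^ 2) j (∑ i, α i) := by_contra fun x => hn ⟨ℚ, K, _, _, _, _, x⟩
    simp only [gbetti, kbetti_eq, edge_eq, monI_pow, mbetti_def] at this
    exact (sum_eq_sum_iff_of_le fun _ _ => hdim_Q j).1 this α (by simp)
  obtain ⟨K, K', _, _, i, d, h⟩ := h
  refine h (sum_congr rfl fun α _ => ?_)
  simp only [kbetti_eq, edge_eq, mbetti_def]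
  by_cases x : ∃ e, 2 ≤ α e
  · obtain ⟨e, he⟩ := x
    have : ∀ (F : Type) [Field F],
        hdim F α.support (fun τ => ∃ s ∈ ES G, s ≤ α - ind τ) i = 0 := fun F _ => by
      rw [mbetti_iff (S := ES G) fun ⟨a, b, _, y⟩ => by
        have := DFunLike.congr_fun y a
        simp at this; omega]
      refine van_cone (e := e) (by simp; omega) (fun τ _ y ⟨_, ⟨a, b, z, rfl⟩, w⟩ =>
        y ⟨_, ⟨a, b, z, rfl⟩, ?_⟩) _
      have k : ∀ c, 1 ≤ (α - ind (τ.erase e)) c → 1 ≤ (α - ind τ) c := fun c => by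
        simp only [Finsupp.tsub_apply, ind_ap, mem_erase]
        by_cases v : c = e
        · subst v; split_ifs <;> omega
        · simp [v]
      rw [two_le z.ne] at w ⊢
      exact w.imp (k a) (k b)
    rw [this, this]
  set E := α.support with hE
  have p : ∀ τ, (∃ s ∈ ES G, s ≤ α - ind τ) ↔ ∃ a b, G.Adj a b ∧ a ∈ E \ τ ∧ b ∈ E \ τ := by
    have k : ∀ τ c, 1 ≤ (α - ind τ) c ↔ c ∈ E \ τ := fun τ c => by
      have : ¬ 2 ≤ α c := fun y => x ⟨c, y⟩
      simp only [Finsupp.tsub_apply, ind_ap, hE, mem_sdiff, Finsupp.mem_support_iff]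
      split_ifs with y <;> simp only [y, not_true, and_false, iff_false, not_false_iff,
        and_true] <;> omega
    exact fun τ => ⟨fun ⟨_, ⟨a, b, z, rfl⟩, w⟩ => ⟨a, b, z, by rwa [two_le z.ne, k, k] at w⟩,
      fun ⟨a, b, z, w⟩ => ⟨_, ⟨a, b, z, rfl⟩, by rwa [two_le z.ne, k, k]⟩⟩
  simp only [p]
  refine hdim_of_zr (fun j => ?_) i
  rcases (by omega : E.card < j + 2 ∨ j + 2 = E.card ∨ j + 3 ≤ E.card) with y | y | y
  · have : ∀ (F : Type) [Field F], ch F E (fun τ => ∃ a b, G.Adj a b ∧ a ∈ E \ τ ∧ b ∈ E \ τ) j =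
        ⊥ := fun F _ => eq_bot_iff.2 fun c hc => funext fun τ => hc τ fun ⟨u, v, a, b, z, w⟩ => by
      have := one_lt_card.2 ⟨a, w.1, b, w.2, z.ne⟩
      rw [card_sdiff_of_subset u] at this; omega
    rw [zr, zr, this, this, bot_inf_eq, bot_inf_eq, finrank_bot, finrank_bot]
  · exact zr_of_Y (card_pos.1 (by omega)) (by rw [top_Y y, top_Y y])
  set β : Fin (n + 1) →₀ ℕ := ind (up E) + Finsupp.single (Fin.last n) 2 with hβ
  have b1 : β (Fin.last n) = 2 := by simp [hβ, ind_ap]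
  have b2 : ∀ c : Fin n, β c.castSucc = if c ∈ E then 1 else 0 := fun c => by
    simp [hβ, ind_ap, (Fin.castSucc_lt_last c).ne]
  have e : β.support = insert (Fin.last n) (up E) := by
    ext c
    refine Fin.lastCases ?_ (fun c => ?_) c <;> simp [b1, b2, (Fin.castSucc_lt_last _).ne]
  have z := zr_of_hdim (fun τ _ => up_erase β τ) (fun j => (a1 K j β).symm.trans (a1 K' j β)) (j + 1)
  have ne := fun c : Fin n => (Fin.castSucc_lt_last c).ne
  have h1 : ∀ τ ⊆ E, τ.card = j + 1 → ∃ s ∈ 2 • ES (cone G), s ≤ β - ind (up τ) := fun τ u v => by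
    obtain ⟨a, ha, b, hb, w⟩ := one_lt_card.1 (show 1 < (E \ τ).card by
      rw [card_sdiff_of_subset u]; omega)
    obtain ⟨ha, ha'⟩ := mem_sdiff.1 ha
    obtain ⟨hb, hb'⟩ := mem_sdiff.1 hb
    refine ⟨_, by rw [two_nsmul]; exact Set.add_mem_add (cz G a) (cz G b), fun c => ?_⟩
    refine Fin.lastCases ?_ (fun c => ?_) c
    · simp [b1, ind_ap, ne]
    · simp only [Finsupp.add_apply, Finsupp.single_apply, Finsupp.tsub_apply, b2, ind_ap, mem_up,
        Fin.castSucc_inj, (ne c).symm, if_false]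
      split_ifs <;> subst_vars <;> first | omega | contradiction
  have h2 : ∀ τ ⊆ E, τ.card = j → ((∃ s ∈ 2 • ES (cone G), s ≤ β - ind (insert (Fin.last n)
      (up τ))) ↔ ∃ a b, G.Adj a b ∧ a ∈ E \ τ ∧ b ∈ E \ τ) := fun τ u v => by
    have k : ∀ c : Fin n, (β - ind (insert (Fin.last n) (up τ))) c.castSucc =
        if c ∈ E \ τ then 1 else 0 := fun c => by
      simp only [Finsupp.tsub_apply, b2, ind_ap, mem_insert, ne c, false_or, mem_up, mem_sdiff]
      by_cases o : c ∈ E <;> by_cases o' : c ∈ τ <;> simp only [o, o', if_true, if_false,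
        not_true, not_false_iff, and_true, and_false]
    have l : (β - ind (insert (Fin.last n) (up τ))) (Fin.last n) = 1 := by simp [b1, ind_ap]
    generalize β - ind (insert (Fin.last n) (up τ)) = γ at k l
    rw [two_nsmul]
    constructor
    · rintro ⟨_, ⟨s, hs, t, ht, rfl⟩, w⟩
      have m : ∀ a b, G.Adj a b → Finsupp.single a.castSucc 1 + Finsupp.single b.castSucc 1 ≤ γ →
          ∃ a b, G.Adj a b ∧ a ∈ E \ τ ∧ b ∈ E \ τ := fun a b r q => by
        rw [two_le fun o => r.ne (Fin.castSucc_injective _ o), k, k] at q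
        exact ⟨a, b, r, by_contra fun o => by simp [o] at q, by_contra fun o => by simp [o] at q⟩
      rcases cc hs with q | ⟨a, b, r, rfl⟩
      · rcases cc ht with q' | ⟨a, b, r, rfl⟩
        · have := w (Fin.last n)
          simp only [Finsupp.add_apply] at this; omega
        · exact m a b r (le_add_self.trans w)
      · exact m a b r (le_self_add.trans w)
    · rintro ⟨a, b, r, ha, hb⟩
      obtain ⟨c, hc, w⟩ := exists_mem_notMem_of_card_lt_card (s := {a, b}) (t := E \ τ)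
        (card_le_two.trans_lt (by rw [card_sdiff_of_subset u]; omega))
      simp only [mem_insert, mem_singleton, not_or] at w
      refine ⟨_, Set.add_mem_add (ce r) (cz G c), fun o => ?_⟩
      refine Fin.lastCases ?_ (fun o => ?_) o
      · simp [l, ne]
      · have := r.ne
        obtain ⟨w, w'⟩ := w
        simp only [Finsupp.add_apply, Finsupp.single_apply, k, Fin.castSucc_inj, (ne o).symm,
          if_false]
        split_ifs <;> subst_vars <;> first | omega | contradiction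
  rw [e, zr_up h1 h2, zr_up h1 h2] at z
  exact zr_of_Y (card_pos.1 (by omega)) z

end Pool.Agent.Results.MP_01886a_al.Cone
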